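import Pool.Agent.Lib.MP_47b218_nt.Rec

/-! Finiteness of the 2-kernel of the Hankel determinants modulo `m`. -/

namespace Pool.Agent.Lib.MP_47b218_nt

lemma kernel_finite {X α : Type} [Finite X] (V : ℕ → X) (P0 P1 : X → X)
    (h0 : ∀ n, V (2 * n) = P0 (V n)) (h1 : ∀ n, V (2 * n + 1) = P1 (V n)) (out : X → α)
    (a : ℕ → α) (ha : ∀ n, a n = out (V n)) :
    Set.Finite {b : ℕ → α | ∃ e r : ℕ, r < 2 ^ e ∧ b = fun n => a (2 ^ e * n + r)} := by
  have key : ∀ e r : ℕ, r < 2 ^ e → ∃ φ : X → X, ∀ n, V (2 ^ e * n + r) = φ (V n) := by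
    intro e
    induction e with
    | zero =>
      intro r hr
      obtain rfl : r = 0 := by simpa using hr
      exact ⟨id, fun n => by simp⟩
    | succ e ih =>
      intro r hr
      obtain ⟨φ, hφ⟩ := ih (r / 2) (by rw [pow_succ] at hr; omega)
      rcases Nat.even_or_odd' r with ⟨q, rfl | rfl⟩
      · refine ⟨P0 ∘ φ, fun n => ?_⟩
        have : 2 * q / 2 = q := by omega
        rw [this] at hφ
        rw [Function.comp, ← hφ, ← h0]; congr 1; ring
      · refine ⟨P1 ∘ φ, fun n => ?_⟩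
        have : (2 * q + 1) / 2 = q := by omega
        rw [this] at hφ
        rw [Function.comp, ← hφ, ← h1]; congr 1; ring
  refine (Set.finite_range (fun φ : X → X => fun n => out (φ (V n)))).subset ?_
  rintro b ⟨e, r, hr, rfl⟩
  obtain ⟨φ, hφ⟩ := key e r hr
  exact ⟨φ, funext fun n => by rw [ha, hφ]⟩

variable {s : ℕ → ℤ}
variable (hs0 : ∀ m, s (2 * m) = s m) (hs1 : ∀ m, s (2 * m + 1) = s m + 1)
include hs0 hs1

lemma G_even (n : ℕ) : GG s (2 * n) = (-1) ^ n * (GG s n - 2 * EE s n) * GG s n := by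
  have := recD_even hs0 hs1 0 n
  rw [two_mul]; linarith

lemma E_even (n : ℕ) : EE s (2 * n) = (-1) ^ n * (GG s n - 2 * EE s n) * (2 * EE s n) := by
  have h0 := recD_even hs0 hs1 0 n
  have h1 := recD_even hs0 hs1 1 n
  rw [two_mul]; linarith

lemma G_odd (n : ℕ) : GG s (2 * n + 1) = (-1) ^ n * KK s (n + 1) ^ 2 := by
  have := recD_odd hs0 hs1 0 n
  rw [two_mul]; linarith

lemma E_odd (n : ℕ) : EE s (2 * n + 1) = (-1) ^ n * KK s (n + 1) ^ 2 := by
  have h0 := recD_odd hs0 hs1 0 n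
  have h1 := recD_odd hs0 hs1 1 n
  rw [two_mul]; linarith

lemma H_rec (a b : ℕ) (h1 : b ≤ a) (h2 : a ≤ b + 1) (hb : GG s b - 2 * EE s b ≠ 0) :
    HH s (a + b) = HH s a * (GG s b - 2 * EE s b) - KK s a * EE s b := by
  have := recS hs0 hs1 0 a b h1 h2 hb
  linarith

lemma K_rec (a b : ℕ) (h1 : b ≤ a) (h2 : a ≤ b + 1) (hb : GG s b - 2 * EE s b ≠ 0) :
    KK s (a + b) = KK s a * (GG s b - 2 * EE s b) := by
  have h0 := recS hs0 hs1 0 a b h1 h2 hb
  have h1 := recS hs0 hs1 1 a b h1 h2 hb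
  linarith

omit hs0 hs1 in
lemma odd_b {n : ℕ} (h : Odd (GG s n)) : Odd (GG s n - 2 * EE s n) :=
  h.sub_even (even_two_mul _)

omit hs0 hs1 in
lemma ne_zero_of_odd {x : ℤ} (h : Odd x) : x ≠ 0 := by
  rintro rfl
  simp at h

lemma parity (n : ℕ) : Odd (GG s n) ∧ Odd (KK s (n + 1)) := by
  induction n using Nat.strong_induction_on with
  | _ n ih =>
    have hneg : ∀ k : ℕ, Odd ((-1 : ℤ) ^ k) := fun k => Odd.pow (by decide)
    rcases Nat.eq_zero_or_pos n with rfl | hn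
    · constructor
      · simp [GG]
      · rw [KK_succ]; simp
    rcases Nat.even_or_odd' n with ⟨q, rfl | rfl⟩
    · obtain ⟨hG, hK⟩ := ih q (by omega)
      constructor
      · rw [G_even hs0 hs1]
        exact ((hneg q).mul (odd_b hG)).mul hG
      · rw [show 2 * q + 1 = (q + 1) + q by ring,
          K_rec hs0 hs1 _ _ (by omega) (by omega) (ne_zero_of_odd (odd_b hG))]
        exact hK.mul (odd_b hG)
    · obtain ⟨hG, hK⟩ := ih q (by omega)
      have hG1 : Odd (GG s (2 * q + 1)) := by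
        rw [G_odd hs0 hs1]
        exact (hneg q).mul hK.pow
      refine ⟨hG1, ?_⟩
      have hG' : Odd (GG s (q + 1)) := by
        rcases Nat.eq_zero_or_pos q with rfl | hq
        · simpa using hG1
        · exact (ih (q + 1) (by omega)).1
      rw [show 2 * q + 1 + 1 = (q + 1) + (q + 1) by ring,
        K_rec hs0 hs1 _ _ (by omega) (by omega) (ne_zero_of_odd (odd_b hG'))]
      exact hK.mul (odd_b hG')

lemma b_ne (n : ℕ) : GG s n - 2 * EE s n ≠ 0 :=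
  ne_zero_of_odd (odd_b (parity hs0 hs1 n).1)

theorem hankel_kernel_finite (m : ℕ) (hm0 : 0 < m) :
    Set.Finite {b : ℕ → ℤ | ∃ e r : ℕ, r < 2 ^ e ∧
      b = fun n => HH s (2 ^ e * n + r + 1) % (m : ℤ)} := by
  have : NeZero m := ⟨hm0.ne'⟩
  let V : ℕ → (Fin 9 → ZMod m) := fun n =>
    ![(HH s n : ZMod m), (HH s (n + 1) : ZMod m), (KK s n : ZMod m), (KK s (n + 1) : ZMod m),
      (GG s n : ZMod m), (GG s (n + 1) : ZMod m), (EE s n : ZMod m), (EE s (n + 1) : ZMod m),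
      (-1) ^ n]
  let P0 : (Fin 9 → ZMod m) → (Fin 9 → ZMod m) := fun x =>
    ![x 0 * (x 4 - 2 * x 6) - x 2 * x 6, x 1 * (x 4 - 2 * x 6) - x 3 * x 6,
      x 2 * (x 4 - 2 * x 6), x 3 * (x 4 - 2 * x 6),
      x 8 * (x 4 - 2 * x 6) * x 4, x 8 * x 3 ^ 2,
      x 8 * (x 4 - 2 * x 6) * (2 * x 6), x 8 * x 3 ^ 2, 1]
  let P1 : (Fin 9 → ZMod m) → (Fin 9 → ZMod m) := fun x =>
    ![x 1 * (x 4 - 2 * x 6) - x 3 * x 6, x 1 * (x 5 - 2 * x 7) - x 3 * x 7,
      x 3 * (x 4 - 2 * x 6), x 3 * (x 5 - 2 * x 7),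
      x 8 * x 3 ^ 2, -x 8 * (x 5 - 2 * x 7) * x 5,
      x 8 * x 3 ^ 2, -x 8 * (x 5 - 2 * x 7) * (2 * x 7), -1]
  have hHe : ∀ n, HH s (2 * n) = HH s n * (GG s n - 2 * EE s n) - KK s n * EE s n := fun n => by
    rw [two_mul]; exact H_rec hs0 hs1 n n le_rfl (by omega) (b_ne hs0 hs1 n)
  have hHo : ∀ n, HH s (2 * n + 1) =
      HH s (n + 1) * (GG s n - 2 * EE s n) - KK s (n + 1) * EE s n := fun n => by
    rw [show 2 * n + 1 = (n + 1) + n by ring]
    exact H_rec hs0 hs1 (n + 1) n (by omega) le_rfl (b_ne hs0 hs1 n)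
  have hKe : ∀ n, KK s (2 * n) = KK s n * (GG s n - 2 * EE s n) := fun n => by
    rw [two_mul]; exact K_rec hs0 hs1 n n le_rfl (by omega) (b_ne hs0 hs1 n)
  have hKo : ∀ n, KK s (2 * n + 1) = KK s (n + 1) * (GG s n - 2 * EE s n) := fun n => by
    rw [show 2 * n + 1 = (n + 1) + n by ring]
    exact K_rec hs0 hs1 (n + 1) n (by omega) le_rfl (b_ne hs0 hs1 n)
  refine kernel_finite V P0 P1 ?_ ?_ (fun x => ((x 1).val : ℤ))
    (fun n => HH s (n + 1) % (m : ℤ)) ?_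
  · intro n
    ext i
    fin_cases i <;>
      simp [V, P0, hHe, hHo, hKe, hKo, G_even hs0 hs1, G_odd hs0 hs1, E_even hs0 hs1,
        E_odd hs0 hs1]
  · intro n
    have e : 2 * n + 1 + 1 = 2 * (n + 1) := by ring
    ext i
    fin_cases i <;>
      simp [V, P1, e, hHe, hHo, hKe, hKo, G_even hs0 hs1, G_odd hs0 hs1, E_even hs0 hs1,
        E_odd hs0 hs1, pow_succ]
  · intro n
    exact (ZMod.val_intCast (HH s (n + 1))).symm

end Pool.Agent.Lib.MP_47b218_nt
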