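import Mathlib

/-! Determinant lemmas used for the Hankel determinants of the binary digit sum. -/

namespace Pool.Agent.Lib.MP_47b218_nt

open Matrix

/-- The all-ones matrix. -/
def J (R : Type) [One R] (ι κ : Type) : Matrix ι κ R := of fun _ _ => 1

@[simp] lemma J_apply (R : Type) [One R] (ι κ : Type) (i : ι) (j : κ) : J R ι κ i j = 1 := rfl

section General

variable {R : Type} [CommRing R] {ι κ : Type} [Fintype ι] [DecidableEq ι] [Fintype κ]
  [DecidableEq κ]

lemma det_col_const {A B : Matrix ι ι R} (c : ι → R) (k : ι) (hk : c k = 0)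
    (h : ∀ i j, A i j = B i j + c j * B i k) : det A = det B := by
  rw [← det_transpose A, ← det_transpose B]
  exact det_eq_of_forall_row_eq_smul_add_const c k hk fun i j => h j i

/-- `t ↦ det (X + t J)` is affine. -/
lemma det_add_smul_J (X : Matrix ι ι R) (t : R) :
    det (X + t • J R ι ι) = det X + t * (det (X + J R ι ι) - det X) := by
  cases isEmpty_or_nonempty ι with
  | inl h => simp [det_isEmpty]
  | inr h =>
    obtain ⟨k⟩ := h
    let B : Matrix ι ι R := of fun i j => X i j - X k j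
    have key : ∀ t : R, det (X + t • J R ι ι) =
        det (B.updateRow k (X k)) + t * det (B.updateRow k (fun _ => 1)) := by
      intro t
      have h1 : det (X + t • J R ι ι) = det (B.updateRow k (X k + t • fun _ => 1)) := by
        refine det_eq_of_forall_row_eq_smul_add_const (fun i => if i = k then 0 else 1) k
          (by simp) ?_
        intro i j
        by_cases hi : i = k
        · subst hi; simp
        · simp [hi, B]; ring
      rw [h1, det_updateRow_add, det_updateRow_smul]
    have h0 := key 0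
    have h1 := key 1
    simp only [zero_smul, add_zero, zero_mul, one_smul, one_mul] at h0 h1
    rw [key t, h1, h0]; ring

/-- Subtracting (or adding) rows and columns of the first block from those of the second. -/
lemma det_blocks_op (A : Matrix ι ι R) (B : Matrix ι κ R) (C : Matrix κ ι R) (D : Matrix κ κ R)
    (φ : κ → ι) (c : R) :
    det (fromBlocks A B C D) =
      det (fromBlocks A (of fun i k => B i k + c * A i (φ k)) (of fun k i => C k i + c * A (φ k) i)
        (of fun k l => D k l + c * B (φ k) l + c * C k (φ l) + c * c * A (φ k) (φ l))) := by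
  let P : Matrix ι κ R := of fun i k => if i = φ k then c else 0
  let Q : Matrix κ ι R := of fun k i => if i = φ k then c else 0
  have h1 : det (fromBlocks (1 : Matrix ι ι R) 0 Q (1 : Matrix κ κ R)) = 1 := by
    rw [det_fromBlocks_zero₁₂]; simp
  have h2 : det (fromBlocks (1 : Matrix ι ι R) P 0 (1 : Matrix κ κ R)) = 1 := by
    rw [det_fromBlocks_zero₂₁]; simp
  have h3 : fromBlocks (1 : Matrix ι ι R) 0 Q (1 : Matrix κ κ R) * fromBlocks A B C D *
      fromBlocks (1 : Matrix ι ι R) P 0 (1 : Matrix κ κ R) =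
      fromBlocks A (of fun i k => B i k + c * A i (φ k)) (of fun k i => C k i + c * A (φ k) i)
        (of fun k l => D k l + c * B (φ k) l + c * C k (φ l) + c * c * A (φ k) (φ l)) := by
    simp only [fromBlocks_multiply, Matrix.one_mul, Matrix.zero_mul, Matrix.mul_one,
      Matrix.mul_zero, add_zero]
    congr 1
    · ext i k
      simp [Matrix.mul_apply, P]; ring
    · ext k i
      simp [Matrix.mul_apply, Q]; ring
    · ext k l
      simp [Matrix.mul_apply, P, Q]; ring
  rw [← h3, det_mul, det_mul, h1, h2]; ring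

lemma det_sym_blocks (X Y : Matrix ι ι R) :
    det (fromBlocks X Y Y X) = det (X - Y) * det (X + Y) := by
  have h1 : det (fromBlocks (1 : Matrix ι ι R) 0 1 (1 : Matrix ι ι R)) = 1 := by
    rw [det_fromBlocks_zero₁₂]; simp
  have h2 : det (fromBlocks (1 : Matrix ι ι R) 0 (-1) (1 : Matrix ι ι R)) = 1 := by
    rw [det_fromBlocks_zero₁₂]; simp
  have h3 : fromBlocks (1 : Matrix ι ι R) 0 1 (1 : Matrix ι ι R) * fromBlocks X Y Y X *
      fromBlocks (1 : Matrix ι ι R) 0 (-1) (1 : Matrix ι ι R) =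
      fromBlocks (X - Y) Y 0 (X + Y) := by
    simp only [fromBlocks_multiply, Matrix.one_mul, Matrix.zero_mul, Matrix.mul_one,
      Matrix.mul_zero, add_zero, zero_add, Matrix.mul_neg]
    congr 1
    · abel
    · abel
    · abel
  rw [← det_fromBlocks_zero₂₁ (X - Y) Y (X + Y), ← h3, det_mul, det_mul, h1, h2]; ring

/-- A three by three block determinant with an anti-triangular shape. -/
lemma det_anti3 (a : R) (w : Matrix Unit κ R) (w' : Matrix κ Unit R) (Z Z' W : Matrix κ κ R) :
    det (fromBlocks (fromBlocks (of fun _ _ : Unit => a) 0 0 (0 : Matrix κ κ R)) (fromRows w Z)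
      (fromCols w' Z') W) = a * (-1) ^ Fintype.card κ * det Z * det Z' := by
  let Y : Matrix (Unit ⊕ κ) κ R := fromRows 0 (-1)
  let X : Matrix κ (Unit ⊕ κ) R := fromCols 0 1
  have h1 : det (fromBlocks (1 : Matrix (Unit ⊕ κ) (Unit ⊕ κ) R) Y 0 (1 : Matrix κ κ R)) = 1 := by
    rw [det_fromBlocks_zero₂₁]; simp
  have h2 : det (fromBlocks (1 : Matrix (Unit ⊕ κ) (Unit ⊕ κ) R) 0 X (1 : Matrix κ κ R)) = 1 := by
    rw [det_fromBlocks_zero₁₂]; simp
  have h3 : fromBlocks (fromBlocks (of fun _ _ : Unit => a) 0 0 (0 : Matrix κ κ R)) (fromRows w Z)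
      (fromCols w' Z') W *
      fromBlocks (1 : Matrix (Unit ⊕ κ) (Unit ⊕ κ) R) Y 0 (1 : Matrix κ κ R) *
      fromBlocks (1 : Matrix (Unit ⊕ κ) (Unit ⊕ κ) R) 0 X (1 : Matrix κ κ R) *
      fromBlocks (1 : Matrix (Unit ⊕ κ) (Unit ⊕ κ) R) Y 0 (1 : Matrix κ κ R) =
      fromBlocks (fromBlocks (of fun _ _ : Unit => a) w 0 Z) 0 (fromCols w' W) (-Z') := by
    simp only [fromBlocks_multiply, Matrix.zero_mul, Matrix.mul_one,
      Matrix.mul_zero, add_zero, zero_add]
    congr 1
    · ext (i | i) (j | j) <;> simp [Matrix.mul_apply, X, Y, Matrix.one_apply]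
    · ext (i | i) j <;> simp [Matrix.mul_apply, X, Y, Matrix.one_apply]
    · ext i (j | j) <;> simp [Matrix.mul_apply, X, Y, Matrix.one_apply]
    · ext i j; simp [Matrix.mul_apply, X, Y, Matrix.one_apply]
  have h4 := congrArg det h3
  rw [det_mul, det_mul, det_mul, h1, h2, det_fromBlocks_zero₁₂, det_fromBlocks_zero₂₁,
    det_neg] at h4
  simp only [mul_one] at h4
  rw [h4]
  simp; ring

end General

/-- Two blocks coupled by all-ones matrices. -/
lemma det_couple {ι κ : Type} [Fintype ι] [DecidableEq ι] [Fintype κ] [DecidableEq κ]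
    (A : Matrix ι ι ℤ) (D : Matrix κ κ ℤ) (hD : det D ≠ 0) :
    det (fromBlocks A (J ℤ ι κ) (J ℤ κ ι) D) =
      det A * det D - (det (A + J ℤ ι ι) - det A) * (det (D + J ℤ κ κ) - det D) := by
  have main : ∀ (A : Matrix ι ι ℚ) (D : Matrix κ κ ℚ), det D ≠ 0 →
      det (fromBlocks A (J ℚ ι κ) (J ℚ κ ι) D) =
      det A * det D - (det (A + J ℚ ι ι) - det A) * (det (D + J ℚ κ κ) - det D) := by
    intro A D hD
    have hu : IsUnit D.det := isUnit_iff_ne_zero.mpr hD
    let _ := invertibleOfIsUnitDet D hu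
    set κ0 : ℚ := ∑ k, ∑ l, D⁻¹ k l with hκ0
    have h1 : J ℚ ι κ * ⅟D * J ℚ κ ι = κ0 • J ℚ ι ι := by
      ext i j
      simp only [Matrix.mul_apply, J_apply, invOf_eq_nonsing_inv, one_mul, mul_one,
        Matrix.smul_apply, smul_eq_mul, hκ0]
      exact Finset.sum_comm
    have h2 : det (D + J ℚ κ κ) = det D * (1 + κ0) := by
      have : J ℚ κ κ = J ℚ κ Unit * J ℚ Unit κ := by
        ext i j; simp [Matrix.mul_apply]
      rw [this, det_add_mul _ _ hu, det_unique (n := Unit)]
      congr 1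
      simp only [Matrix.add_apply, one_apply_eq, Matrix.mul_apply, J_apply, one_mul, mul_one, hκ0]
      rw [Finset.sum_comm]
    rw [det_fromBlocks₂₂, h1, sub_eq_add_neg, ← neg_smul, det_add_smul_J, h2]; ring
  have hc : ∀ {τ : Type} [Fintype τ] [DecidableEq τ] (M : Matrix τ τ ℤ),
      ((det M : ℤ) : ℚ) = det (M.map (Int.castRingHom ℚ)) := by
    intro τ _ _ M
    exact (Int.castRingHom ℚ).map_det M
  have h := main (A.map (Int.castRingHom ℚ)) (D.map (Int.castRingHom ℚ))
    (by rw [← hc]; exact_mod_cast hD)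
  apply Int.cast_injective (α := ℚ)
  have e1 : (fromBlocks A (J ℤ ι κ) (J ℤ κ ι) D).map (Int.castRingHom ℚ) =
      fromBlocks (A.map (Int.castRingHom ℚ)) (J ℚ ι κ) (J ℚ κ ι) (D.map (Int.castRingHom ℚ)) := by
    ext (i | i) (j | j) <;> simp
  have e2 : (A + J ℤ ι ι).map (Int.castRingHom ℚ) = A.map (Int.castRingHom ℚ) + J ℚ ι ι := by
    ext i j; simp
  have e3 : (D + J ℤ κ κ).map (Int.castRingHom ℚ) = D.map (Int.castRingHom ℚ) + J ℚ κ κ := by
    ext i j; simp
  rw [Int.cast_sub, Int.cast_mul, Int.cast_mul, Int.cast_sub, Int.cast_sub, hc, hc, hc, hc, hc,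
    e1, e2, e3]
  exact h

end Pool.Agent.Lib.MP_47b218_nt
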