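import Pool.Agent.Lib.MP_47b218_nt.Det

/-! Closed polynomial recurrences for the Hankel determinants of the binary digit sum. -/

namespace Pool.Agent.Lib.MP_47b218_nt

open Matrix

/-- Hankel matrix of a sequence. -/
def hm (f : ℕ → ℤ) (n : ℕ) : Matrix (Fin n) (Fin n) ℤ := of fun i j => f (i + j)

@[simp] lemma hm_apply (f : ℕ → ℤ) (n : ℕ) (i j : Fin n) : hm f n i j = f (i + j) := rfl

lemma det_hm_reindex (f : ℕ → ℤ) (t : ℤ) (N : ℕ) {τ : Type} [Fintype τ] [DecidableEq τ]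
    (σ : τ → ℕ) (hinj : Function.Injective σ) (hlt : ∀ x, σ x < N)
    (hcard : Fintype.card τ = N) :
    det (hm f N + t • J ℤ (Fin N) (Fin N)) = det (of fun x y : τ => f (σ x + σ y) + t) := by
  let g : τ → Fin N := fun x => ⟨σ x, hlt x⟩
  have hg : Function.Bijective g := by
    rw [Fintype.bijective_iff_injective_and_card]
    refine ⟨fun x y h => hinj (congrArg Fin.val h), by simp [hcard]⟩
  rw [← det_submatrix_equiv_self (Equiv.ofBijective g hg)]
  congr 1
  ext x y
  simp [g, -zsmul_eq_mul]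

lemma det_hm_evenodd (f : ℕ → ℤ) (t : ℤ) (a b : ℕ) (h1 : b ≤ a) (h2 : a ≤ b + 1) :
    det (hm f (a + b) + t • J ℤ (Fin (a + b)) (Fin (a + b))) =
      det (fromBlocks (of fun i j : Fin a => f (2 * (i + j)) + t)
        (of fun (i : Fin a) (j : Fin b) => f (2 * (i + j) + 1) + t)
        (of fun (i : Fin b) (j : Fin a) => f (2 * (i + j) + 1) + t)
        (of fun i j : Fin b => f (2 * (i + j + 1)) + t)) := by
  rw [det_hm_reindex f t (a + b) (τ := Fin a ⊕ Fin b)
    (Sum.elim (fun i => 2 * (i : ℕ)) (fun j => 2 * (j : ℕ) + 1))]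
  · congr 1
    ext (i | i) (j | j) <;> simp <;> congr 1 <;> ring
  · rintro (i | i) (j | j) h <;> simp at h ⊢ <;> omega
  · rintro (i | i) <;> simp <;> omega
  · simp

section Rec

variable (s : ℕ → ℤ)

/-- first difference -/
def dd (m : ℕ) : ℤ := s (m + 1) - s m

def HH (n : ℕ) : ℤ := det (hm s n)
def KK (n : ℕ) : ℤ := det (hm s n + J ℤ (Fin n) (Fin n)) - det (hm s n)
def GG (n : ℕ) : ℤ := det (hm (dd s) n)
def EE (n : ℕ) : ℤ := det (hm (dd s) n + J ℤ (Fin n) (Fin n)) - det (hm (dd s) n)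

lemma detS (t : ℤ) (n : ℕ) : det (hm s n + t • J ℤ (Fin n) (Fin n)) = HH s n + t * KK s n :=
  det_add_smul_J _ _

lemma detD (t : ℤ) (n : ℕ) :
    det (hm (dd s) n + t • J ℤ (Fin n) (Fin n)) = GG s n + t * EE s n :=
  det_add_smul_J _ _

variable {s}
variable (hs0 : ∀ m, s (2 * m) = s m) (hs1 : ∀ m, s (2 * m + 1) = s m + 1)
include hs0 hs1

lemma dd_even (m : ℕ) : dd s (2 * m) = 1 := by
  simp [dd, hs0, hs1]

lemma dd_odd (m : ℕ) : dd s (2 * m + 1) = dd s m - 1 := by
  have := hs0 (m + 1)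
  rw [show 2 * (m + 1) = 2 * m + 1 + 1 by ring] at this
  simp [dd, this, hs1]; ring

lemma recS (t : ℤ) (a b : ℕ) (h1 : b ≤ a) (h2 : a ≤ b + 1) (hb : GG s b - 2 * EE s b ≠ 0) :
    HH s (a + b) + t * KK s (a + b) =
      (HH s a + t * KK s a) * (GG s b - 2 * EE s b) - KK s a * EE s b := by
  rw [← detS, det_hm_evenodd s t a b h1 h2, det_blocks_op _ _ _ _ (Fin.castLE h1) (-1)]
  have e : fromBlocks (of fun i j : Fin a => s (2 * (i + j)) + t)
      (of fun (i : Fin a) (k : Fin b) =>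
        (of fun (i : Fin a) (j : Fin b) => s (2 * (i + j) + 1) + t) i k +
          -1 * (of fun i j : Fin a => s (2 * (i + j)) + t) i (Fin.castLE h1 k))
      (of fun (k : Fin b) (i : Fin a) =>
        (of fun (i : Fin b) (j : Fin a) => s (2 * (i + j) + 1) + t) k i +
          -1 * (of fun i j : Fin a => s (2 * (i + j)) + t) (Fin.castLE h1 k) i)
      (of fun k l : Fin b => (of fun i j : Fin b => s (2 * (i + j + 1)) + t) k l +
        -1 * (of fun (i : Fin a) (j : Fin b) => s (2 * (i + j) + 1) + t) (Fin.castLE h1 k) l +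
        -1 * (of fun (i : Fin b) (j : Fin a) => s (2 * (i + j) + 1) + t) k (Fin.castLE h1 l) +
        -1 * -1 * (of fun i j : Fin a => s (2 * (i + j)) + t) (Fin.castLE h1 k)
          (Fin.castLE h1 l)) =
      fromBlocks (hm s a + t • J ℤ (Fin a) (Fin a)) (J ℤ _ _) (J ℤ _ _)
        (hm (dd s) b + (-2 : ℤ) • J ℤ (Fin b) (Fin b)) := by
    ext (i | i) (j | j) <;> simp [hs0, hs1, dd, -zsmul_eq_mul]
    ring
  have hD : det (hm (dd s) b + (-2 : ℤ) • J ℤ (Fin b) (Fin b)) = GG s b - 2 * EE s b := by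
    rw [detD]; ring
  have hD' : det (hm (dd s) b + (-2 : ℤ) • J ℤ (Fin b) (Fin b) + J ℤ (Fin b) (Fin b)) =
      GG s b - EE s b := by
    have : hm (dd s) b + (-2 : ℤ) • J ℤ (Fin b) (Fin b) + J ℤ (Fin b) (Fin b) =
        hm (dd s) b + (-1 : ℤ) • J ℤ (Fin b) (Fin b) := by
      ext i j; simp [-zsmul_eq_mul]; ring
    rw [this, detD]; ring
  have hS' : det (hm s a + t • J ℤ (Fin a) (Fin a) + J ℤ (Fin a) (Fin a)) =
      HH s a + (t + 1) * KK s a := by
    have : hm s a + t • J ℤ (Fin a) (Fin a) + J ℤ (Fin a) (Fin a) =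
        hm s a + (t + 1) • J ℤ (Fin a) (Fin a) := by
      ext i j; simp [-zsmul_eq_mul]; ring
    rw [this, detS]
  rw [e, det_couple _ _ (by rw [hD]; exact hb), hD, hD', hS', detS]; ring

lemma recD_even (t : ℤ) (n : ℕ) :
    GG s (n + n) + t * EE s (n + n) =
      (-1) ^ n * (GG s n - 2 * EE s n) * (GG s n + 2 * t * EE s n) := by
  rw [← detD, det_hm_evenodd (dd s) t n n le_rfl (by omega)]
  have e : fromBlocks (of fun i j : Fin n => dd s (2 * (i + j)) + t)
        (of fun (i : Fin n) (j : Fin n) => dd s (2 * (i + j) + 1) + t)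
        (of fun (i : Fin n) (j : Fin n) => dd s (2 * (i + j) + 1) + t)
        (of fun i j : Fin n => dd s (2 * (i + j + 1)) + t) =
      fromBlocks ((1 + t) • J ℤ (Fin n) (Fin n)) (hm (dd s) n + (t - 1) • J ℤ (Fin n) (Fin n))
        (hm (dd s) n + (t - 1) • J ℤ (Fin n) (Fin n)) ((1 + t) • J ℤ (Fin n) (Fin n)) := by
    ext (i | i) (j | j) <;> simp [dd_even hs0 hs1, dd_odd hs0 hs1, -zsmul_eq_mul] <;> ring
  have e1 : (1 + t) • J ℤ (Fin n) (Fin n) - (hm (dd s) n + (t - 1) • J ℤ (Fin n) (Fin n)) =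
      -(hm (dd s) n + (-2 : ℤ) • J ℤ (Fin n) (Fin n)) := by
    ext i j; simp [-zsmul_eq_mul]; ring
  have e2 : (1 + t) • J ℤ (Fin n) (Fin n) + (hm (dd s) n + (t - 1) • J ℤ (Fin n) (Fin n)) =
      hm (dd s) n + (2 * t) • J ℤ (Fin n) (Fin n) := by
    ext i j; simp [-zsmul_eq_mul]; ring
  rw [e, det_sym_blocks, e1, e2, det_neg, detD, detD]
  rw [Fintype.card_fin]; ring

omit hs0 hs1 in
lemma KK_succ (n : ℕ) :
    KK s (n + 1) = det (of fun i j : Fin n => dd s (i + 1 + j) - dd s j) := by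
  have key : ∀ t : ℤ, HH s (n + 1) + t * KK s (n + 1) =
      det (fromBlocks (of fun _ _ : Unit => s 0 + t) (of fun _ (j : Fin n) => s (j + 1) - s 0)
        (of fun (i : Fin n) _ => s (i + 1) - s 0)
        (of fun i j : Fin n => s (i + j + 2) - s (i + 1) - s (j + 1) + s 0)) := by
    intro t
    rw [← detS, det_hm_reindex s t (n + 1) (τ := Unit ⊕ Fin n)
      (Sum.elim (fun _ => 0) (fun j => (j : ℕ) + 1))]
    · have e : (of fun x y : Unit ⊕ Fin n =>
          s (Sum.elim (fun _ => 0) (fun j : Fin n => (j : ℕ) + 1) x +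
            Sum.elim (fun _ => 0) (fun j : Fin n => (j : ℕ) + 1) y) + t) =
          fromBlocks (of fun _ _ : Unit => s 0 + t) (of fun _ (j : Fin n) => s (j + 1) + t)
            (of fun (i : Fin n) _ => s (i + 1) + t)
            (of fun i j : Fin n => s (i + j + 2) + t) := by
        ext (i | i) (j | j) <;> simp
        congr 1; ring
      rw [e, det_blocks_op _ _ _ _ (fun _ => ()) (-1)]
      congr 1
      ext (i | i) (j | j) <;> simp <;> ring
    · rintro (i | i) (j | j) h <;> simp at h ⊢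
      exact Fin.ext h
    · rintro (i | i) <;> simp
    · simp; ring
  have h0 := key 0
  have h1 := key 1
  set M0 := fromBlocks (of fun _ _ : Unit => s 0 + 0) (of fun _ (j : Fin n) => s (j + 1) - s 0)
        (of fun (i : Fin n) (_ : Unit) => s (i + 1) - s 0)
        (of fun i j : Fin n => s (i + j + 2) - s (i + 1) - s (j + 1) + s 0) with hM0
  have e1 : fromBlocks (of fun _ _ : Unit => s 0 + 1) (of fun _ (j : Fin n) => s (j + 1) - s 0)
        (of fun (i : Fin n) (_ : Unit) => s (i + 1) - s 0)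
        (of fun i j : Fin n => s (i + j + 2) - s (i + 1) - s (j + 1) + s 0) =
      M0.updateRow (Sum.inl ()) (M0 (Sum.inl ()) + Sum.elim (fun _ => 1) (fun _ => 0)) := by
    ext (i | i) (j | j) <;> simp [hM0]
  have e2 : M0.updateRow (Sum.inl ()) (Sum.elim (fun _ => 1) (fun _ => 0)) =
      fromBlocks (1 : Matrix Unit Unit ℤ) 0 (of fun (i : Fin n) (_ : Unit) => s (i + 1) - s 0)
        (of fun i j : Fin n => s (i + j + 2) - s (i + 1) - s (j + 1) + s 0) := by
    ext (i | i) (j | j) <;> simp [hM0]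
  rw [e1, det_updateRow_add, updateRow_eq_self, e2, det_fromBlocks_zero₁₂, det_one, ← h0] at h1
  have h2 : KK s (n + 1) =
      det (of fun i j : Fin n => s (i + j + 2) - s (i + 1) - s (j + 1) + s 0) := by
    linarith
  rw [h2]
  cases n with
  | zero => simp
  | succ m =>
    refine det_eq_of_forall_col_eq_smul_add_pred (fun _ => 1) ?_ ?_
    · intro i
      simp [dd]; ring
    · intro i j
      simp only [of_apply, Fin.val_succ, Fin.val_castSucc, dd]
      rw [show (i : ℕ) + 1 + (j + 1) + 1 = i + (j + 1) + 2 by ring,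
        show (i : ℕ) + 1 + (j + 1) = i + j + 2 by ring]
      ring

lemma recD_odd (t : ℤ) (n : ℕ) :
    GG s (n + n + 1) + t * EE s (n + n + 1) = (1 + t) * (-1) ^ n * KK s (n + 1) ^ 2 := by
  rw [← detD, det_hm_reindex (dd s) t (n + n + 1) (τ := (Unit ⊕ Fin n) ⊕ Fin n)
    (Sum.elim (Sum.elim (fun _ => 0) (fun i => 2 * ((i : ℕ) + 1))) (fun j => 2 * (j : ℕ) + 1))]
  · let c : (Unit ⊕ Fin n) ⊕ Fin n → ℤ := Sum.elim (Sum.elim (fun _ => 0) (fun _ => 1)) (fun _ => 0)
    let Z : Matrix (Fin n) (Fin n) ℤ := of fun i j : Fin n => dd s (i + 1 + j) - dd s j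
    let w : Matrix Unit (Fin n) ℤ := of fun _ j => dd s j - 1 + t
    let M1 : Matrix ((Unit ⊕ Fin n) ⊕ Fin n) ((Unit ⊕ Fin n) ⊕ Fin n) ℤ :=
      fromBlocks (fromBlocks (of fun _ _ : Unit => 1 + t) (of fun _ _ => 1 + t) 0
        (0 : Matrix (Fin n) (Fin n) ℤ)) (fromRows w Z)
        (fromCols wᵀ (of fun i j : Fin n => dd s (j + 1 + i) - 1 + t)) (of fun _ _ => 1 + t)
    let M2 : Matrix ((Unit ⊕ Fin n) ⊕ Fin n) ((Unit ⊕ Fin n) ⊕ Fin n) ℤ :=
      fromBlocks (fromBlocks (of fun _ _ : Unit => 1 + t) 0 0 (0 : Matrix (Fin n) (Fin n) ℤ))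
        (fromRows w Z) (fromCols wᵀ Zᵀ) (of fun _ _ => 1 + t)
    have hev : ∀ m k : ℕ, k = 2 * m → dd s k = 1 := by
      rintro m k rfl; exact dd_even hs0 hs1 m
    have hod : ∀ m k : ℕ, k = 2 * m + 1 → dd s k = dd s m - 1 := by
      rintro m k rfl; exact dd_odd hs0 hs1 m
    have e1 : det (of fun x y : (Unit ⊕ Fin n) ⊕ Fin n =>
        dd s (Sum.elim (Sum.elim (fun _ => 0) (fun i : Fin n => 2 * ((i : ℕ) + 1)))
          (fun j : Fin n => 2 * (j : ℕ) + 1) x +
          Sum.elim (Sum.elim (fun _ => 0) (fun i : Fin n => 2 * ((i : ℕ) + 1)))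
          (fun j : Fin n => 2 * (j : ℕ) + 1) y) + t) = det M1 := by
      refine det_eq_of_forall_row_eq_smul_add_const c (Sum.inl (Sum.inl ())) (by simp [c]) ?_
      rintro ((i | i) | i) ((j | j) | j) <;>
        simp only [M1, c, w, Z, of_apply, Sum.elim_inl, Sum.elim_inr, fromBlocks_apply₁₁,
          fromBlocks_apply₁₂, fromBlocks_apply₂₁, fromBlocks_apply₂₂, fromRows_apply_inl,
          fromRows_apply_inr, fromCols_apply_inl, fromCols_apply_inr, transpose_apply,
          Matrix.zero_apply]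
      · rw [hev 0 _ (by ring)]; ring
      · rw [hev (j + 1) _ (by ring)]; ring
      · rw [hod j _ (by ring)]; ring
      · rw [hev (i + 1) _ (by ring)]; ring
      · rw [hev (i + j + 2) _ (by ring)]; ring
      · rw [hod (i + 1 + j) _ (by ring)]; ring
      · rw [hod i _ (by ring)]; ring
      · rw [hod (j + 1 + i) _ (by ring)]; ring
      · rw [hev (i + j + 1) _ (by ring)]; ring
    have e2 : det M1 = det M2 := by
      refine det_col_const c (Sum.inl (Sum.inl ())) (by simp [c]) ?_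
      rintro ((i | i) | i) ((j | j) | j) <;> simp [M1, M2, c, w, Z]
      ring
    rw [e1, e2, det_anti3, det_transpose, KK_succ]
    simp [Z]; ring
  · rintro ((i | i) | i) ((j | j) | j) h <;> simp at h ⊢ <;> omega
  · rintro ((i | i) | i) <;> simp <;> omega
  · simp; ring

end Rec

end Pool.Agent.Lib.MP_47b218_nt
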